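import Pool.Agent.W792.WA.Stm6
import Pool.Agent.W191.LL.Avg0

/-!
Part WD of project WA: hopping amplitudes of one level.
-/

set_option autoImplicit false

namespace Pool.Agent.W62.WA.WD

open MeasureTheory Filter Set
open scoped Topology
open Pool.Agent.W792.WA Pool.Agent.W792.LL Pool.Agent.W191.LL UnitAddTorus

noncomputable section

/-- the phase function -/
def ex (d : ℕ) (t : ℝ) (k : UnitAddTorus (Fin d)) : ℂ := Complex.exp (Complex.I * t * lap d k)

lemma ex_cont (d : ℕ) (t : ℝ) : Continuous (ex d t) := by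
  unfold ex
  fun_prop

lemma ex_norm (d : ℕ) (t : ℝ) (k : UnitAddTorus (Fin d)) : ‖ex d t k‖ = 1 := by
  unfold ex
  have : Complex.I * t * lap d k = ((t * lap d k : ℝ) : ℂ) * Complex.I := by
    push_cast
    ring
  rw [this]
  exact Complex.norm_exp_ofReal_mul_I _

lemma four (d M : ℕ) (h : ℤ) (k : UnitAddTorus (Fin d)) :
    fourier h (ph d M k) = ex d ((h : ℝ) * M) k := by
  unfold ph ex
  rw [fourier_coe_apply]
  congr 1
  have hpi : (Real.pi : ℂ) ≠ 0 := by exact_mod_cast Real.pi_ne_zero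
  push_cast
  field_simp

theorem main : S_KC → S_WD := by
  intro hKC d ψ hd hsum
  obtain ⟨C, hC, hb⟩ := hKC d hd
  let ψC : C(UnitAddCircle, ℂ) := ⟨fun t => ((ψ t : ℝ) : ℂ), by fun_prop⟩
  let c : ℤ → ℂ := fourierCoeff ψC
  have hsum' : Summable fun h => ‖c h‖ := hsum
  have hps : ∀ y, HasSum (fun i => c i • fourier i y) (ψC y) :=
    has_pointwise_sum_fourier_series_of_summable (f := ψC) hsum'.of_norm
  have hT : 0 ≤ ∑' h, ‖c h‖ := tsum_nonneg fun _ => norm_nonneg _
  refine ⟨C * (∑' h, ‖c h‖) + 1, by positivity, ?_⟩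
  intro M x
  let F : ℤ → UnitAddTorus (Fin d) → ℂ := fun h t =>
    mFourier (-x) t * (c h * ex d ((h : ℝ) * M) t)
  have hFi : ∀ h, Integrable (F h) (mu d) := fun h =>
    mfc_int (fun t => c h * ex d ((h : ℝ) * M) t) (continuous_const.mul (ex_cont d _)) (-x)
  have hFn : ∀ h t, ‖F h t‖ ≤ ‖c h‖ := by
    intro h t
    simp only [F]
    rw [norm_mul, norm_mul, ex_norm, mul_one]
    calc ‖mFourier (-x) t‖ * ‖c h‖ ≤ 1 * ‖c h‖ :=
          mul_le_mul_of_nonneg_right (mf_norm _ _) (norm_nonneg _)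
      _ = ‖c h‖ := one_mul _
  have hFs : Summable fun h => ∫ t, ‖F h t‖ ∂(mu d) := by
    refine Summable.of_nonneg_of_le (fun h => integral_nonneg fun t => norm_nonneg _) ?_ hsum'
    intro h
    calc ∫ t, ‖F h t‖ ∂(mu d) ≤ ∫ _, ‖c h‖ ∂(mu d) :=
          integral_mono (hFi h).norm (integrable_const _) (fun t => hFn h t)
      _ = ‖c h‖ := by simp
  have hS := hasSum_integral_of_summable_integral_norm hFi hFs
  have e1 : (∫ t, (∑' h, F h t) ∂(mu d)) = mFourierCoeff (fun k : UnitAddTorus (Fin d) =>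
      ((ψ ((M * lap d k / (2 * Real.pi) : ℝ) : UnitAddCircle) : ℝ) : ℂ)) x := by
    rw [mfc_eq]
    congr 1
    ext t
    have h1 := (hps (ph d M t)).mul_left (mFourier (-x) t)
    have h2 : (fun i => mFourier (-x) t * (c i • fourier i (ph d M t))) = fun i => F i t := by
      funext i
      simp only [F]
      rw [four, smul_eq_mul]
    rw [h2] at h1
    rw [h1.tsum_eq]
    rfl
  have e2 : ∀ h, ∫ t, F h t ∂(mu d) = c h * mFourierCoeff (ex d ((h : ℝ) * M)) x := by
    intro h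
    rw [← mfc_smul, mfc_eq]
  rw [e1] at hS
  have hden : 0 < (1 + ‖x‖) ^ ((d : ℝ) / 3) := by positivity
  have hbd : ∀ h, ‖∫ t, F h t ∂(mu d)‖ ≤ ‖c h‖ * (C / (1 + ‖x‖) ^ ((d : ℝ) / 3)) := by
    intro h
    rw [e2, norm_mul]
    refine mul_le_mul_of_nonneg_left ?_ (norm_nonneg _)
    exact hb ((h : ℝ) * M) x
  have hle := hS.norm_le_of_bounded (hsum'.hasSum.mul_right (C / (1 + ‖x‖) ^ ((d : ℝ) / 3))) hbd
  refine hle.trans ?_
  rw [← mul_div_assoc]
  apply div_le_div_of_nonneg_right _ hden.le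
  linarith [mul_comm C (∑' h, ‖c h‖)]

end

end Pool.Agent.W62.WA.WD
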